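import Pool.Agent.Lib.MP_fcd4e5_al.Main

set_option autoImplicit false

namespace Pool.Agent.Results.MP_fcd4e5_al.FreeSolubleNotRigid

theorem result :
    ∃ (H : Type) (_ : Group H), Group.FG H ∧ Group.ResiduallyFinite H ∧
      (∀ (Q : Type) [Group Q] [Finite Q],
        (∃ f : FreeGroup (Fin 3) ⧸ derivedSeries (FreeGroup (Fin 3)) 3 →* Q,
            Function.Surjective f) ↔
          (∃ f : H →* Q, Function.Surjective f)) ∧
      IsEmpty (H ≃* FreeGroup (Fin 3) ⧸ derivedSeries (FreeGroup (Fin 3)) 3) := by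
  obtain ⟨H, h⟩ := Pool.Agent.Lib.MP_fcd4e5_al.main
  exact ⟨H, inferInstance, h⟩

end Pool.Agent.Results.MP_fcd4e5_al.FreeSolubleNotRigid
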